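import Pool.Agent.Helper93.T53.StD

/-! # Project T53 (levels `5·3^n`): module ExB (from the three functions to the symbol) -/

set_option autoImplicit false

namespace Pool.Agent.Helper10.T53

open Pool.Agent.Helper14.CV (Homog EqC act Tl StFar StFex)
open Pool.Agent.Helper28.T5 (HTy SymH)
open Pool.Agent.Helper93.T53

section

variable {R : Type} [AddCommGroup R]

private theorem cg {V : ℤ → ℤ → ℤ → ℤ → R} {a b c d a' b' c' d' : ℤ} (h1 : a = a') (h2 : b = b')
    (h3 : c = c') (h4 : d = d') : V a b c d = V a' b' c' d' := by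
  subst h1 h2 h3 h4
  rfl

private theorem cg2 {G : ℤ → ℤ → R} {a b a' b' : ℤ} (h1 : a = a') (h2 : b = b') :
    G a b = G a' b' := by
  subst h1 h2
  rfl

/-- the value of the path from `b/d` to `a/c` -/
private def EE (V W : ℤ → ℤ → ℤ → ℤ → R) (a b c d : ℤ) : R :=
  if (5 : ℤ) ∣ c then V a b c d
  else if (5 : ℤ) ∣ d then -V b (-a) d (-c)
  else if (5 : ℤ) ∣ c - 2 * d then W (a - 2 * b) b (c - 2 * d) d
  else if (5 : ℤ) ∣ c + 2 * d then
    V (a + 2 * b) b (c + 2 * d) d - V (a + 2 * b) (-a - b) (c + 2 * d) (-c - d) +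
      W (a + 2 * b) (-a - b) (c + 2 * d) (-c - d)
  else if (5 : ℤ) ∣ c - d then V (a - b) b (c - d) d - V (a - b) a (c - d) c
  else V (a + b) b (c + d) d - V (a + b) (-a) (c + d) (-c)

/-- the conditions on the three functions which do not depend on the level -/
private structure VW (V W U : ℤ → ℤ → ℤ → ℤ → R) : Prop where
  neg : ∀ a b c d : ℤ, a * d - b * c = 1 → (5 : ℤ) ∣ c → V (-a) (-b) (-c) (-d) = V a b c d ∧
    W (-a) (-b) (-c) (-d) = W a b c d ∧ U (-a) (-b) (-c) (-d) = U a b c d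
  inv : ∀ a b c d : ℤ, a * d - b * c = 1 → (5 : ℤ) ∣ c →
    W (-2 * a - 5 * b) (a + 2 * b) (-2 * c - 5 * d) (c + 2 * d) = -W a b c d ∧
    U (2 * a - 5 * b) (a - 2 * b) (2 * c - 5 * d) (c - 2 * d) = -U a b c d ∧
    V a b c d - W a b c d = V (3 * a + 5 * b) (a + 2 * b) (3 * c + 5 * d) (c + 2 * d) +
      U (3 * a + 5 * b) (a + 2 * b) (3 * c + 5 * d) (c + 2 * d)

variable {V W U : ℤ → ℤ → ℤ → ℤ → R}

private theorem ev0 {a b c d : ℤ} (hc : (5 : ℤ) ∣ c) : EE V W a b c d = V a b c d := by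
  unfold EE
  rw [if_pos hc]

private theorem ev1 {a b c d : ℤ} (hc : ¬ (5 : ℤ) ∣ c) (hd : (5 : ℤ) ∣ d) :
    EE V W a b c d = -V b (-a) d (-c) := by
  unfold EE
  rw [if_neg hc, if_pos hd]

private theorem ev2 {a b c d : ℤ} (hc : ¬ (5 : ℤ) ∣ c) (h : (5 : ℤ) ∣ c - 2 * d) :
    EE V W a b c d = W (a - 2 * b) b (c - 2 * d) d := by
  unfold EE
  rw [if_neg hc, if_neg (by omega), if_pos h]

private theorem ev3 {a b c d : ℤ} (hc : ¬ (5 : ℤ) ∣ c) (h : (5 : ℤ) ∣ c + 2 * d) :
    EE V W a b c d = V (a + 2 * b) b (c + 2 * d) d - V (a + 2 * b) (-a - b) (c + 2 * d) (-c - d) +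
      W (a + 2 * b) (-a - b) (c + 2 * d) (-c - d) := by
  unfold EE
  rw [if_neg hc, if_neg (by omega), if_neg (by omega), if_pos h]

private theorem ev4 {a b c d : ℤ} (hc : ¬ (5 : ℤ) ∣ c) (h : (5 : ℤ) ∣ c - d) :
    EE V W a b c d = V (a - b) b (c - d) d - V (a - b) a (c - d) c := by
  unfold EE
  rw [if_neg hc, if_neg (by omega), if_neg (by omega), if_neg (by omega), if_pos h]

private theorem ev5 {a b c d : ℤ} (hc : ¬ (5 : ℤ) ∣ c) (h : (5 : ℤ) ∣ c + d) :
    EE V W a b c d = V (a + b) b (c + d) d - V (a + b) (-a) (c + d) (-c) := by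
  unfold EE
  rw [if_neg hc, if_neg (by omega), if_neg (by omega), if_neg (by omega), if_neg (by omega)]

/-- the six classes of a bottom row -/
private theorem classes {a b c d : ℤ} (_ : a * d - b * c = 1) :
    (5 : ℤ) ∣ c ∨ (¬ (5 : ℤ) ∣ c ∧ (5 : ℤ) ∣ d) ∨ (¬ (5 : ℤ) ∣ c ∧ ¬ (5 : ℤ) ∣ d ∧ (5 : ℤ) ∣ c - 2 * d) ∨
      (¬ (5 : ℤ) ∣ c ∧ ¬ (5 : ℤ) ∣ d ∧ (5 : ℤ) ∣ c + 2 * d) ∨ (¬ (5 : ℤ) ∣ c ∧ ¬ (5 : ℤ) ∣ d ∧ (5 : ℤ) ∣ c - d) ∨
      (¬ (5 : ℤ) ∣ c ∧ ¬ (5 : ℤ) ∣ d ∧ (5 : ℤ) ∣ c + d) := by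
  have h1 : c % 5 = 0 ∨ c % 5 = 1 ∨ c % 5 = 2 ∨ c % 5 = 3 ∨ c % 5 = 4 := by omega
  have h2 : d % 5 = 0 ∨ d % 5 = 1 ∨ d % 5 = 2 ∨ d % 5 = 3 ∨ d % 5 = 4 := by omega
  rcases h1 with h1 | h1 | h1 | h1 | h1
  · left
    omega
  all_goals rcases h2 with h2 | h2 | h2 | h2 | h2 <;> omega

private theorem not_both {a b c d : ℤ} (h : a * d - b * c = 1) (hc : (5 : ℤ) ∣ c) :
    ¬ (5 : ℤ) ∣ d := by
  rintro ⟨k, rfl⟩
  obtain ⟨l, rfl⟩ := hc
  have e : a * (5 * k) - b * (5 * l) = 5 * (a * k - b * l) := by ring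
  omega

/-- the third relation at `g T⁻¹` -/
private theorem third (hv : VW V W U) {p q r s : ℤ} (h : p * s - q * r = 1) (hr : (5 : ℤ) ∣ r) :
    V p (q - p) r (s - r) - W p (q - p) r (s - r) =
      V (2 * p - 5 * q) (p - 2 * q) (2 * r - 5 * s) (r - 2 * s) - U p q r s := by
  have hdet : p * (s - r) - (q - p) * r = 1 := by linear_combination h
  have h1 := (hv.inv p (q - p) r (s - r) hdet hr).2.2
  have h2 := (hv.inv p q r s h hr).2.1
  have hd2 : (2 * p - 5 * q) * (r - 2 * s) - (p - 2 * q) * (2 * r - 5 * s) = 1 := by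
    linear_combination h
  obtain ⟨n1, _, n3⟩ := hv.neg (2 * p - 5 * q) (p - 2 * q) (2 * r - 5 * s) (r - 2 * s) hd2
    (by omega)
  have e1 : V (3 * p + 5 * (q - p)) (p + 2 * (q - p)) (3 * r + 5 * (s - r)) (r + 2 * (s - r)) =
      V (-(2 * p - 5 * q)) (-(p - 2 * q)) (-(2 * r - 5 * s)) (-(r - 2 * s)) :=
    cg (by ring) (by ring) (by ring) (by ring)
  have e2 : U (3 * p + 5 * (q - p)) (p + 2 * (q - p)) (3 * r + 5 * (s - r)) (r + 2 * (s - r)) =
      U (-(2 * p - 5 * q)) (-(p - 2 * q)) (-(2 * r - 5 * s)) (-(r - 2 * s)) :=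
    cg (by ring) (by ring) (by ring) (by ring)
  rw [h1, e1, e2, n1, n3, h2]
  abel

/-- the value in the class `-2`, second form -/
private theorem ev3' (hv : VW V W U) {a b c d : ℤ} (hdet : a * d - b * c = 1)
    (hc : ¬ (5 : ℤ) ∣ c) (h : (5 : ℤ) ∣ c + 2 * d) :
    EE V W a b c d = V (a + 2 * b) b (c + 2 * d) d -
      V (2 * a - b) a (2 * c - d) c + U (a + 2 * b) b (c + 2 * d) d := by
  rw [ev3 hc h]
  have hd : (a + 2 * b) * d - b * (c + 2 * d) = 1 := by linear_combination hdet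
  have h1 := third hv hd h
  have e1 : V (a + 2 * b) (b - (a + 2 * b)) (c + 2 * d) (d - (c + 2 * d)) =
      V (a + 2 * b) (-a - b) (c + 2 * d) (-c - d) := cg rfl (by ring) rfl (by ring)
  have e2 : W (a + 2 * b) (b - (a + 2 * b)) (c + 2 * d) (d - (c + 2 * d)) =
      W (a + 2 * b) (-a - b) (c + 2 * d) (-c - d) := cg rfl (by ring) rfl (by ring)
  have e3 : V (2 * (a + 2 * b) - 5 * b) (a + 2 * b - 2 * b) (2 * (c + 2 * d) - 5 * d)
      (c + 2 * d - 2 * d) = V (2 * a - b) a (2 * c - d) c :=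
    cg (by ring) (by ring) (by ring) (by ring)
  rw [e1, e2, e3] at h1
  linear_combination (norm := abel) -h1

/-- the sign -/
private theorem ee_neg (hv : VW V W U) {a b c d : ℤ} (h : a * d - b * c = 1) :
    EE V W (-a) (-b) (-c) (-d) = EE V W a b c d := by
  rcases classes h with hc | ⟨hc, hd⟩ | ⟨hc, hd, hx⟩ | ⟨hc, hd, hx⟩ | ⟨hc, hd, hx⟩ | ⟨hc, hd, hx⟩
  · rw [ev0 (by omega), ev0 hc]
    exact (hv.neg a b c d h hc).1
  · rw [ev1 (by omega) (by omega), ev1 hc hd, (hv.neg b (-a) d (-c) (by linear_combination h) hd).1]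
  · rw [ev2 (by omega) (by omega), ev2 hc hx,
      ← (hv.neg (a - 2 * b) b (c - 2 * d) d (by linear_combination h) hx).2.1]
    exact cg (by ring) rfl (by ring) rfl
  · rw [ev3 (by omega) (by omega), ev3 hc hx,
      ← (hv.neg (a + 2 * b) b (c + 2 * d) d (by linear_combination h) hx).1,
      ← (hv.neg (a + 2 * b) (-a - b) (c + 2 * d) (-c - d) (by linear_combination h) hx).1,
      ← (hv.neg (a + 2 * b) (-a - b) (c + 2 * d) (-c - d) (by linear_combination h) hx).2.1]
    congr 1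
    · congr 1
      · exact cg (by ring) rfl (by ring) rfl
      · exact cg (by ring) (by ring) (by ring) (by ring)
    · exact cg (by ring) (by ring) (by ring) (by ring)
  · rw [ev4 (by omega) (by omega), ev4 hc hx,
      ← (hv.neg (a - b) b (c - d) d (by linear_combination h) hx).1,
      ← (hv.neg (a - b) a (c - d) c (by linear_combination h) hx).1]
    congr 1
    · exact cg (by ring) rfl (by ring) rfl
    · exact cg (by ring) rfl (by ring) rfl
  · rw [ev5 (by omega) (by omega), ev5 hc hx,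
      ← (hv.neg (a + b) b (c + d) d (by linear_combination h) hx).1,
      ← (hv.neg (a + b) (-a) (c + d) (-c) (by linear_combination h) hx).1]
    congr 1
    · exact cg (by ring) rfl (by ring) rfl
    · exact cg (by ring) rfl (by ring) rfl

/-- the orientation -/
private theorem ee_S (hv : VW V W U) {a b c d : ℤ} (h : a * d - b * c = 1) :
    EE V W b (-a) d (-c) = -EE V W a b c d := by
  rcases classes h with hc | ⟨hc, hd⟩ | ⟨hc, hd, hx⟩ | ⟨hc, hd, hx⟩ | ⟨hc, hd, hx⟩ | ⟨hc, hd, hx⟩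
  · rw [ev1 (not_both h hc) (by omega), ev0 hc, (hv.neg a b c d h hc).1]
  · rw [ev0 hd, ev1 hc hd, neg_neg]
  · rw [ev2 hd (by omega), ev2 hc hx]
    have h1 := (hv.inv (a - 2 * b) b (c - 2 * d) d (by linear_combination h) hx).1
    have hdet : (2 * a + b) * (-c) - (-a) * (2 * c + d) = 1 := by linear_combination h
    have h2 := (hv.neg (2 * a + b) (-a) (2 * c + d) (-c) hdet (by omega)).2.1
    rw [← h1]
    refine Eq.trans (Eq.trans (cg (by ring) rfl (by ring) rfl) h2.symm) ?_
    exact cg (by ring) (by ring) (by ring) (by ring)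
  · have hdet : b * -c - -a * d = 1 := by linear_combination h
    rw [ev3' hv hdet hd (by omega), ev3' hv h hc hx]
    have hd2 : (a + 2 * b) * d - b * (c + 2 * d) = 1 := by linear_combination h
    have h1 := (hv.inv (a + 2 * b) b (c + 2 * d) d hd2 hx).2.1
    have hd3 : (2 * a - b) * c - a * (2 * c - d) = 1 := by linear_combination h
    obtain ⟨n1, _, n3⟩ := hv.neg (2 * a - b) a (2 * c - d) c hd3 (by omega)
    obtain ⟨m1, _, m3⟩ := hv.neg (a + 2 * b) b (c + 2 * d) d hd2 hx
    have e1 : V (b + 2 * -a) (-a) (d + 2 * -c) (-c) = V (2 * a - b) a (2 * c - d) c := by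
      rw [← n1]
      exact cg (by ring) rfl (by ring) rfl
    have e2 : U (b + 2 * -a) (-a) (d + 2 * -c) (-c) = -U (a + 2 * b) b (c + 2 * d) d := by
      rw [← h1]
      refine Eq.trans (Eq.trans (cg (by ring) rfl (by ring) rfl) n3) ?_
      exact cg (by ring) (by ring) (by ring) (by ring)
    have e3 : V (2 * b - -a) b (2 * d - -c) d = V (a + 2 * b) b (c + 2 * d) d :=
      cg (by ring) rfl (by ring) rfl
    rw [e1, e2, e3]
    abel
  · rw [ev5 hd (by omega), ev4 hc hx]
    have e1 : V (b + -a) (-a) (d + -c) (-c) = V (a - b) a (c - d) c := by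
      rw [← (hv.neg (a - b) a (c - d) c (by linear_combination h) hx).1]
      exact cg (by ring) rfl (by ring) rfl
    have e2 : V (b + -a) (-b) (d + -c) (-d) = V (a - b) b (c - d) d := by
      rw [← (hv.neg (a - b) b (c - d) d (by linear_combination h) hx).1]
      exact cg (by ring) rfl (by ring) rfl
    rw [e1, e2]
    abel
  · rw [ev4 hd (by omega), ev5 hc hx]
    have e1 : V (b - -a) (-a) (d - -c) (-c) = V (a + b) (-a) (c + d) (-c) :=
      cg (by ring) rfl (by ring) rfl
    have e2 : V (b - -a) b (d - -c) d = V (a + b) b (c + d) d :=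
      cg (by ring) rfl (by ring) rfl
    rw [e1, e2]
    abel

/-- the triangle relation -/
private theorem ee_tri (hv : VW V W U) {a b c d : ℤ} (h : a * d - b * c = 1) :
    EE V W a b c d = EE V W a (a + b) c (c + d) + EE V W (a + b) b (c + d) d := by
  rcases classes h with hc | ⟨hc, hd⟩ | ⟨hc, hd, hx⟩ | ⟨hc, hd, hx⟩ | ⟨hc, hd, hx⟩ | ⟨hc, hd, hx⟩
  · have hd := not_both h hc
    rw [ev0 hc, ev0 hc, ev4 (a := a + b) (by omega) (by omega)]
    have e1 : V (a + b - b) b (c + d - d) d = V a b c d := cg (by ring) rfl (by ring) rfl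
    have e2 : V (a + b - b) (a + b) (c + d - d) (c + d) = V a (a + b) c (c + d) :=
      cg (by ring) rfl (by ring) rfl
    rw [e1, e2]
    abel
  · rw [ev1 hc hd, ev4 (b := a + b) hc (by omega), ev1 (a := a + b) (by omega) hd]
    have hdet : b * -c - -a * d = 1 := by linear_combination h
    have hdet2 : b * -(c + d) - -(a + b) * d = 1 := by linear_combination h
    have e1 : V (a - (a + b)) (a + b) (c - (c + d)) (c + d) = V b (-(a + b)) d (-(c + d)) := by
      rw [← (hv.neg b (-(a + b)) d (-(c + d)) hdet2 hd).1]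
      exact cg (by ring) (by ring) (by ring) (by ring)
    have e2 : V (a - (a + b)) a (c - (c + d)) c = V b (-a) d (-c) := by
      rw [← (hv.neg b (-a) d (-c) hdet hd).1]
      exact cg (by ring) (by ring) (by ring) (by ring)
    rw [e1, e2]
    abel
  · rw [ev2 hc hx, ev5 (b := a + b) hc (by omega)]
    have hd1 : (a + b) * d - b * (c + d) = 1 := by linear_combination h
    rw [ev3' (a := a + b) hv hd1 (by omega) (by omega)]
    have hk : (2 * a + b) * -c - -a * (2 * c + d) = 1 := by linear_combination h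
    have h3 := (hv.inv (2 * a + b) (-a) (2 * c + d) (-c) hk (by omega)).2.2
    have e1 : V (a + (a + b)) (a + b) (c + (c + d)) (c + d) =
        V (2 * (a + b) - b) (a + b) (2 * (c + d) - d) (c + d) :=
      cg (by ring) rfl (by ring) rfl
    have e2 : V (a + (a + b)) (-a) (c + (c + d)) (-c) = V (2 * a + b) (-a) (2 * c + d) (-c) :=
      cg (by ring) rfl (by ring) rfl
    have e3 : V (3 * (2 * a + b) + 5 * -a) (2 * a + b + 2 * -a) (3 * (2 * c + d) + 5 * -c)
        (2 * c + d + 2 * -c) = V (a + b + 2 * b) b (c + d + 2 * d) d := by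
      exact cg (by ring) (by ring) (by ring) (by ring)
    have e4 : U (3 * (2 * a + b) + 5 * -a) (2 * a + b + 2 * -a) (3 * (2 * c + d) + 5 * -c)
        (2 * c + d + 2 * -c) = U (a + b + 2 * b) b (c + d + 2 * d) d := by
      exact cg (by ring) (by ring) (by ring) (by ring)
    have h4 := (hv.inv (a - 2 * b) b (c - 2 * d) d (by linear_combination h) hx).1
    have h5 : W (2 * a + b) (-a) (2 * c + d) (-c) = -W (a - 2 * b) b (c - 2 * d) d := by
      rw [← h4, ← (hv.neg (2 * a + b) (-a) (2 * c + d) (-c) hk (by omega)).2.1]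
      exact cg (by ring) (by ring) (by ring) (by ring)
    rw [e3, e4, h5] at h3
    rw [e1, e2]
    linear_combination (norm := abel) h3
  · rw [ev3 hc hx, ev2 (b := a + b) hc (by omega), ev5 (a := a + b) (by omega) (by omega)]
    have e1 : V (a + b + b) b (c + d + d) d = V (a + 2 * b) b (c + 2 * d) d :=
      cg (by ring) rfl (by ring) rfl
    have e2 : V (a + b + b) (-(a + b)) (c + d + d) (-(c + d)) =
        V (a + 2 * b) (-a - b) (c + 2 * d) (-c - d) :=
      cg (by ring) (by ring) (by ring) (by ring)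
    have hdet : (a + 2 * b) * (-c - d) - (-a - b) * (c + 2 * d) = 1 := by linear_combination h
    have e3 : W (a - 2 * (a + b)) (a + b) (c - 2 * (c + d)) (c + d) =
        W (a + 2 * b) (-a - b) (c + 2 * d) (-c - d) := by
      rw [← (hv.neg (a + 2 * b) (-a - b) (c + 2 * d) (-c - d) hdet hx).2.1]
      exact cg (by ring) (by ring) (by ring) (by ring)
    rw [e1, e2, e3]
    abel
  · have hd1 : a * (c + d) - (a + b) * c = 1 := by linear_combination h
    rw [ev4 hc hx, ev3' (b := a + b) hv hd1 hc (by omega), ev2 (a := a + b) (by omega) (by omega)]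
    have hk : (a - b) * d - b * (c - d) = 1 := by linear_combination h
    have h3 := (hv.inv (a - b) b (c - d) d hk hx).2.2
    have e1 : V (3 * (a - b) + 5 * b) (a - b + 2 * b) (3 * (c - d) + 5 * d) (c - d + 2 * d) =
        V (a + 2 * (a + b)) (a + b) (c + 2 * (c + d)) (c + d) :=
      cg (by ring) (by ring) (by ring) (by ring)
    have e2 : U (3 * (a - b) + 5 * b) (a - b + 2 * b) (3 * (c - d) + 5 * d) (c - d + 2 * d) =
        U (a + 2 * (a + b)) (a + b) (c + 2 * (c + d)) (c + d) :=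
      cg (by ring) (by ring) (by ring) (by ring)
    have e3 : V (2 * a - (a + b)) a (2 * c - (c + d)) c = V (a - b) a (c - d) c :=
      cg (by ring) rfl (by ring) rfl
    have e4 : W (a + b - 2 * b) b (c + d - 2 * d) d = W (a - b) b (c - d) d :=
      cg (by ring) rfl (by ring) rfl
    rw [e1, e2] at h3
    rw [e3, e4]
    linear_combination (norm := abel) h3
  · rw [ev5 hc hx, ev1 (b := a + b) hc (by omega), ev0 (a := a + b) hx]
    abel

/-- equal values along the edges `h0, h∞` and `h0, h½` with `5 ∣ c` are enough -/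
private theorem far5 (hfar : StFar) {H : ℤ → ℤ → R} (hH : Homog H)
    (h1 : ∀ a b c d : ℤ, a * d - b * c = 1 → (5 : ℤ) ∣ c → H a c = H b d)
    (h2 : ∀ a b c d : ℤ, a * d - b * c = 1 → (5 : ℤ) ∣ c → H (a + 2 * b) (c + 2 * d) = H b d) :
    EqC H 0 := by
  refine hfar R inferInstance H hH fun a b c d h => ?_
  have hac : a ≠ 0 ∨ c ≠ 0 := by
    by_contra h'
    push Not at h'
    rw [h'.1, h'.2] at h
    simp at h
  have hn : H (-a) (-c) = H a c := by
    have := hH (-1) a c (by norm_num) hac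
    rwa [neg_one_mul, neg_one_mul] at this
  rcases classes h with hc | ⟨hc, hd⟩ | ⟨hc, hd, hx⟩ | ⟨hc, hd, hx⟩ | ⟨hc, hd, hx⟩ | ⟨hc, hd, hx⟩
  · exact h1 a b c d h hc
  · rw [h1 b (-a) d (-c) (by linear_combination h) hd, hn]
  · rw [← h2 (a - 2 * b) b (c - 2 * d) d (by linear_combination h) hx]
    exact cg2 (by ring) (by ring)
  · have e1 := h1 (a + 2 * b) b (c + 2 * d) d (by linear_combination h) hx
    have e2 := h1 (a + 2 * b) (-a - b) (c + 2 * d) (-c - d) (by linear_combination h) hx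
    have e3 := h2 (a + 2 * b) (-a - b) (c + 2 * d) (-c - d) (by linear_combination h) hx
    have e4 : H (a + 2 * b + 2 * (-a - b)) (c + 2 * d + 2 * (-c - d)) = H (-a) (-c) :=
      cg2 (by ring) (by ring)
    rw [← e1, e2, ← e3, e4, hn]
  · rw [← h1 (a - b) b (c - d) d (by linear_combination h) hx,
      h1 (a - b) a (c - d) c (by linear_combination h) hx]
  · rw [← h1 (a + b) b (c + d) d (by linear_combination h) hx,
      h1 (a + b) (-a) (c + d) (-c) (by linear_combination h) hx, hn]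

private theorem nz {a b c d : ℤ} (h : a * d - b * c = 1) (k l : ℤ) (hkl : k ≠ 0 ∨ l ≠ 0) :
    a * k + b * l ≠ 0 ∨ c * k + d * l ≠ 0 := by
  by_contra hz
  push Not at hz
  have e1 : k = 0 := by linear_combination (-k) * h + d * hz.1 - b * hz.2
  have e2 : l = 0 := by linear_combination (-l) * h - c * hz.1 + a * hz.2
  rcases hkl with h' | h'
  · exact h' e1
  · exact h' e2

/-- the values of the symbol -/
private theorem vals (hv : VW V W U) {G : ℤ → ℤ → R} (hGh : Homog G)
    (hG : ∀ a b c d : ℤ, a * d - b * c = 1 → G a c - G b d = EE V W a b c d)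
    {a b c d : ℤ} (h : a * d - b * c = 1) (hc : (5 : ℤ) ∣ c) :
    G a c - G b d = V a b c d ∧ G (a + 2 * b) (c + 2 * d) - G b d = W a b c d ∧
      G (2 * a - 5 * b) (2 * c - 5 * d) - G a c = U a b c d := by
  have gV : ∀ a b c d : ℤ, a * d - b * c = 1 → (5 : ℤ) ∣ c → G a c - G b d = V a b c d := by
    intro a b c d h hc
    rw [hG a b c d h, ev0 hc]
  have gW : ∀ a b c d : ℤ, a * d - b * c = 1 → (5 : ℤ) ∣ c →
      G (a + 2 * b) (c + 2 * d) - G b d = W a b c d := by
    intro a b c d h hc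
    have hd := not_both h hc
    rw [hG (a + 2 * b) b (c + 2 * d) d (by linear_combination h), ev2 (by omega) (by omega)]
    exact cg (by ring) rfl (by ring) rfl
  refine ⟨gV a b c d h hc, gW a b c d h hc, ?_⟩
  have hd2 : (2 * a - 5 * b) * (c - 2 * d) - (a - 2 * b) * (2 * c - 5 * d) = 1 := by
    linear_combination h
  have hd3 : a * (d - c) - (b - a) * c = 1 := by linear_combination h
  have v1 := gV (2 * a - 5 * b) (a - 2 * b) (2 * c - 5 * d) (c - 2 * d) hd2 (by omega)
  have v2 := gV a (b - a) c (d - c) hd3 hc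
  have w2 := gW a (b - a) c (d - c) hd3 hc
  have t := third hv h hc
  have n1 : G (a + 2 * (b - a)) (c + 2 * (d - c)) = G (a - 2 * b) (c - 2 * d) := by
    have h0 := nz h 1 (-2) (by norm_num)
    have h1 := hGh (-1) _ _ (by norm_num) h0
    refine Eq.trans ?_ (Eq.trans h1 ?_)
    · exact cg2 (by ring) (by ring)
    · exact cg2 (by ring) (by ring)
  rw [n1] at w2
  linear_combination (norm := abel) v1 + w2 - v2 - t

end

private theorem eqc_of_sub {R : Type} [AddCommGroup R] {G H : ℤ → ℤ → R} (h : EqC (G - H) 0) :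
    EqC G H := by
  obtain ⟨k, hk⟩ := h
  refine ⟨k, fun p q hpq => ?_⟩
  have h1 := hk p q hpq
  have h2 : G p q - H p q = k := by
    have h6 : (0 : ℤ → ℤ → R) p q = 0 := rfl
    rw [h6, zero_add] at h1
    exact h1
  rw [← h2]
  abel

/-- Module ExB. -/
theorem hExB (hp : TPlT) (hx : StFex) (hf : StFar) : TExB := by
  intro R _ r s F V W U hvwu
  obtain ⟨hneg, hinv, hgam, hgam5, hbase⟩ := hvwu
  have hv : VW V W U := ⟨hneg, hinv⟩
  obtain ⟨G, hGh, hG⟩ := hx R inferInstance (EE V W) (fun a b c d h =>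
    ⟨ee_neg hv h, ee_S hv h, ee_tri hv h⟩)
  refine ⟨G, ⟨hGh, ?_⟩, ?_⟩
  · intro α β γ δ hty hβ hγ
    have hdet0 : α * δ - β * γ ≠ 0 := hty.det_ne
    apply eqc_of_sub
    have hH : Homog (act α β γ δ G - G) := by
      rw [sub_eq_add_neg]
      exact (hGh.act hdet0).add hGh.neg
    rcases hty with ⟨hdet, h5γ⟩ | ⟨hdet, h5α, h5γ, h5δ⟩
    · have hd : ∀ a b c d : ℤ, a * d - b * c = 1 →
          (α * a + β * c) * (γ * b + δ * d) - (α * b + β * d) * (γ * a + δ * c) = 1 := by
        intro a b c d h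
        linear_combination (a * d - b * c) * hdet + h
      refine far5 hf hH ?_ ?_
      · intro a b c d h hc
        have v1 := (vals hv hGh hG h hc).1
        have v2 := (vals hv hGh hG (hd a b c d h)
          (dvd_add (Dvd.dvd.mul_right h5γ _) (Dvd.dvd.mul_left hc _))).1
        have g1 := (hgam α β γ δ a b c d hdet h5γ hβ hγ h hc).1
        show G (α * a + β * c) (γ * a + δ * c) - G a c = G (α * b + β * d) (γ * b + δ * d) - G b d
        linear_combination (norm := abel) v2 - v1 + g1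
      · intro a b c d h hc
        have v1 := (vals hv hGh hG h hc).2.1
        have v2 := (vals hv hGh hG (hd a b c d h)
          (dvd_add (Dvd.dvd.mul_right h5γ _) (Dvd.dvd.mul_left hc _))).2.1
        have g1 := (hgam α β γ δ a b c d hdet h5γ hβ hγ h hc).2.1
        show G (α * (a + 2 * b) + β * (c + 2 * d)) (γ * (a + 2 * b) + δ * (c + 2 * d)) -
          G (a + 2 * b) (c + 2 * d) = G (α * b + β * d) (γ * b + δ * d) - G b d
        have e : G (α * (a + 2 * b) + β * (c + 2 * d)) (γ * (a + 2 * b) + δ * (c + 2 * d)) =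
            G (α * a + β * c + 2 * (α * b + β * d)) (γ * a + δ * c + 2 * (γ * b + δ * d)) :=
          cg2 (by ring) (by ring)
        rw [e]
        linear_combination (norm := abel) v2 - v1 + g1
    · obtain ⟨α, rfl⟩ := h5α
      obtain ⟨γ, rfl⟩ := h5γ
      obtain ⟨δ, rfl⟩ := h5δ
      have hdet' : 5 * α * δ - β * γ = 1 := by
        have e : 5 * (5 * α * δ - β * γ) = 5 := by linear_combination hdet
        omega
      have hγ' : (3 : ℤ) ^ (s + 1) ∣ γ := by
        have hc3 : IsCoprime ((3 : ℤ) ^ (s + 1)) 5 := by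
          apply IsCoprime.pow_left
          exact ⟨2, -1, by norm_num⟩
        exact hc3.dvd_of_dvd_mul_left hγ
      have hd : ∀ a b c d : ℤ, a * d - 5 * b * c = 1 →
          (5 * α * b + β * d) * (-(γ * a + 5 * δ * c)) -
            (-(α * a + β * c)) * (5 * (γ * b + δ * d)) = 1 := by
        intro a b c d h
        linear_combination (a * d - 5 * b * c) * hdet' + h
      refine far5 hf hH ?_ ?_
      · intro a b c d h hc
        obtain ⟨c, rfl⟩ := hc
        have h' : a * d - 5 * b * c = 1 := by linear_combination h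
        have v1 := (vals hv hGh hG h (dvd_mul_right _ _)).1
        have v2 := (vals hv hGh hG (hd a b c d h') (dvd_mul_right _ _)).1
        have g1 := (hgam5 α β γ δ a b c d hdet' hβ hγ' h').1
        have hnz : α * a + β * c ≠ 0 ∨ γ * a + 5 * δ * c ≠ 0 := by
          by_contra hz
          push Not at hz
          have e := hd a b c d h'
          rw [hz.1, hz.2] at e
          simp at e
        have hn : G (-(α * a + β * c)) (-(γ * a + 5 * δ * c)) =
            G (α * a + β * c) (γ * a + 5 * δ * c) := by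
          have := hGh (-1) _ _ (by norm_num) hnz
          rwa [neg_one_mul, neg_one_mul] at this
        have hn2 : G (5 * α * a + β * (5 * c)) (5 * γ * a + 5 * δ * (5 * c)) =
            G (α * a + β * c) (γ * a + 5 * δ * c) := by
          have := hGh 5 _ _ (by norm_num) hnz
          rw [← this]
          exact cg2 (by ring) (by ring)
        have e3 : G (5 * α * b + β * d) (5 * γ * b + 5 * δ * d) =
            G (5 * α * b + β * d) (5 * (γ * b + δ * d)) := cg2 rfl (by ring)
        rw [hn] at v2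
        show G (5 * α * a + β * (5 * c)) (5 * γ * a + 5 * δ * (5 * c)) - G a (5 * c) =
          G (5 * α * b + β * d) (5 * γ * b + 5 * δ * d) - G b d
        rw [hn2, e3]
        linear_combination (norm := abel) -v2 - v1 - g1
      · intro a b c d h hc
        obtain ⟨c, rfl⟩ := hc
        have h' : a * d - 5 * b * c = 1 := by linear_combination h
        have v1 := (vals hv hGh hG h (dvd_mul_right _ _)).2.1
        have v2 := (vals hv hGh hG (hd a b c d h') (dvd_mul_right _ _)).2.2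
        have g1 := (hgam5 α β γ δ a b c d hdet' hβ hγ' h').2.2
        have e1 : G (2 * (5 * α * b + β * d) - 5 * -(α * a + β * c))
            (2 * (5 * (γ * b + δ * d)) - 5 * -(γ * a + 5 * δ * c)) =
            G (5 * α * (a + 2 * b) + β * (5 * c + 2 * d)) (5 * γ * (a + 2 * b) +
              5 * δ * (5 * c + 2 * d)) := cg2 (by ring) (by ring)
        have e3 : G (5 * α * b + β * d) (5 * γ * b + 5 * δ * d) =
            G (5 * α * b + β * d) (5 * (γ * b + δ * d)) := cg2 rfl (by ring)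
        rw [e1] at v2
        show G (5 * α * (a + 2 * b) + β * (5 * c + 2 * d)) (5 * γ * (a + 2 * b) +
              5 * δ * (5 * c + 2 * d)) - G (a + 2 * b) (5 * c + 2 * d) =
          G (5 * α * b + β * d) (5 * γ * b + 5 * δ * d) - G b d
        rw [e3]
        linear_combination (norm := abel) v2 - v1 + g1
  · intro i
    funext x y
    obtain ⟨⟨hty, hb, hc⟩, hev⟩ := hp r s x y
    have hdet : 1 * (1 + 9 * (x.val : ℤ) * yT x y) - 3 * (x.val : ℤ) * (3 * yT x y) = 1 := by ring
    have hb' := hbase x y 1 (x.val : ℤ) (yT x y) (1 + 9 * (x.val : ℤ) * yT x y) hdet hev hb hc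
    obtain ⟨b0, b1, b2, b3, b4, b5, b6, b7, b8⟩ := hb'
    generalize hX : (x.val : ℤ) = X at *
    generalize hY : yT x y = Y at *
    have hY3 : (5 : ℤ) ∣ 3 * Y := Dvd.dvd.mul_left hev _
    set gg : ℤ → ℤ → R := fun k l => G (k + 3 * X * l) (3 * Y * k + (1 + 9 * X * Y) * l) with hgg
    have hnn : ∀ k l : ℤ, (k ≠ 0 ∨ l ≠ 0) → gg (-k) (-l) = gg k l := by
      intro k l hkl
      have h0 := nz hdet k l hkl
      rw [one_mul] at h0
      have h1 := hGh (-1) _ _ (by norm_num) h0
      rw [hgg]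
      refine Eq.trans ?_ h1
      exact cg2 (by ring) (by ring)
    have key : ∀ u1 u2 v1 v2 : ℤ, edgeT u1 u2 v1 v2 G x y = gg u1 u2 - gg v1 v2 := by
      intro u1 u2 v1 v2
      unfold edgeT
      rw [hX, hY]
    have vm : ∀ m n k l : ℤ, m * l - n * k = 1 → (5 : ℤ) ∣ k →
        V (m + 3 * X * k) (n + 3 * X * l) (3 * Y * m + (1 + 9 * X * Y) * k)
          (3 * Y * n + (1 + 9 * X * Y) * l) = gg m k - gg n l ∧
        W (m + 3 * X * k) (n + 3 * X * l) (3 * Y * m + (1 + 9 * X * Y) * k)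
          (3 * Y * n + (1 + 9 * X * Y) * l) = gg (m + 2 * n) (k + 2 * l) - gg n l ∧
        U (m + 3 * X * k) (n + 3 * X * l) (3 * Y * m + (1 + 9 * X * Y) * k)
          (3 * Y * n + (1 + 9 * X * Y) * l) = gg (2 * m - 5 * n) (2 * k - 5 * l) - gg m k := by
      intro m n k l h hk
      have hd : (m + 3 * X * k) * (3 * Y * n + (1 + 9 * X * Y) * l) -
          (n + 3 * X * l) * (3 * Y * m + (1 + 9 * X * Y) * k) = 1 := by
        linear_combination h
      obtain ⟨w1, w2, w3⟩ := vals hv hGh hG hd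
        (dvd_add (Dvd.dvd.mul_right hY3 _) (Dvd.dvd.mul_left hk _))
      refine ⟨w1.symm, w2.symm.trans ?_, w3.symm.trans ?_⟩
      · rw [hgg]
        congr 1
        exact cg2 (by ring) (by ring)
      · rw [hgg]
        congr 1
        exact cg2 (by ring) (by ring)
    fin_cases i
    · show edgeT 1 0 (-1) 1 G x y = F 0 x y
      rw [← b0, key]
      have v1 : V 1 (3 * X - 1) (3 * Y) (1 + 9 * X * Y - 3 * Y) = gg 1 0 - gg (-1) 1 :=
        Eq.trans (cg (by ring) (by ring) (by ring) (by ring)) (vm 1 (-1) 0 1 (by norm_num) (by norm_num)).1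
      rw [v1]
    · show edgeT (-3) 5 (-1) 1 G x y = F 1 x y
      rw [← b1, key]
      have v1 : V (3 * 1 - 15 * X) (6 * X - 1) (9 * Y - 5 * (1 + 9 * X * Y))
          (2 * (1 + 9 * X * Y) - 3 * Y) = gg 3 (-5) - gg (-1) 2 :=
        Eq.trans (cg (by ring) (by ring) (by ring) (by ring)) (vm 3 (-1) (-5) 2 (by norm_num) (by norm_num)).1
      have v2 : W 1 (3 * X - 1) (3 * Y) (1 + 9 * X * Y - 3 * Y) = gg (-1) 2 - gg (-1) 1 :=
        Eq.trans (cg (by ring) (by ring) (by ring) (by ring)) (vm 1 (-1) 0 1 (by norm_num) (by norm_num)).2.1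
      have n1 : gg 3 (-5) = gg (-3) 5 := by simpa using hnn (-3) 5 (by norm_num)
      rw [v1, v2, n1]
      abel
    · show edgeT (-1) 2 (-3) 5 G x y = F 2 x y
      rw [← b2, key]
      have v1 : V (3 * 1 - 15 * X) (6 * X - 1) (9 * Y - 5 * (1 + 9 * X * Y))
          (2 * (1 + 9 * X * Y) - 3 * Y) = gg 3 (-5) - gg (-1) 2 :=
        Eq.trans (cg (by ring) (by ring) (by ring) (by ring)) (vm 3 (-1) (-5) 2 (by norm_num) (by norm_num)).1
      have n1 : gg 3 (-5) = gg (-3) 5 := by simpa using hnn (-3) 5 (by norm_num)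
      rw [v1, n1]
      abel
    · show edgeT 3 5 1 2 G x y = F 3 x y
      rw [← b3, key]
      have v1 : V (3 * 1 + 15 * X) (1 + 6 * X) (9 * Y + 5 * (1 + 9 * X * Y))
          (3 * Y + 2 * (1 + 9 * X * Y)) = gg 3 5 - gg 1 2 :=
        Eq.trans (cg (by ring) (by ring) (by ring) (by ring)) (vm 3 1 5 2 (by norm_num) (by norm_num)).1
      rw [v1]
    · show edgeT 0 1 (-2) 5 G x y = F 4 x y
      rw [← b4, key]
      have v1 : V 1 (3 * X) (3 * Y) (1 + 9 * X * Y) = gg 1 0 - gg 0 1 :=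
        Eq.trans (cg (by ring) (by ring) (by ring) (by ring)) (vm 1 0 0 1 (by norm_num) (by norm_num)).1
      have v2 : U 1 (3 * X) (3 * Y) (1 + 9 * X * Y) = gg 2 (-5) - gg 1 0 :=
        Eq.trans (cg (by ring) (by ring) (by ring) (by ring)) (vm 1 0 0 1 (by norm_num) (by norm_num)).2.2
      have n1 : gg 2 (-5) = gg (-2) 5 := by simpa using hnn (-2) 5 (by norm_num)
      rw [v1, v2, n1]
      abel
    · show edgeT (-2) 5 (-1) 2 G x y = F 5 x y
      rw [← b5, key]
      have v1 : V (15 * X - 2 * 1) (6 * X - 1) (5 * (1 + 9 * X * Y) - 6 * Y)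
          (2 * (1 + 9 * X * Y) - 3 * Y) = gg (-2) 5 - gg (-1) 2 :=
        Eq.trans (cg (by ring) (by ring) (by ring) (by ring)) (vm (-2) (-1) 5 2 (by norm_num) (by norm_num)).1
      rw [v1]
    · show edgeT 1 2 2 5 G x y = F 6 x y
      rw [← b6, key]
      have v1 : V (-2 * 1 - 15 * X) (1 + 6 * X) (-6 * Y - 5 * (1 + 9 * X * Y))
          (3 * Y + 2 * (1 + 9 * X * Y)) = gg (-2) (-5) - gg 1 2 :=
        Eq.trans (cg (by ring) (by ring) (by ring) (by ring)) (vm (-2) 1 (-5) 2 (by norm_num) (by norm_num)).1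
      have n1 : gg (-2) (-5) = gg 2 5 := hnn 2 5 (by norm_num)
      rw [v1, n1]
      abel
    · show edgeT 7 5 1 1 G x y = F 7 x y
      rw [← b7, key]
      have v1 : V (-7 * 1 - 15 * X) (3 * 1 + 6 * X) (-21 * Y - 5 * (1 + 9 * X * Y))
          (9 * Y + 2 * (1 + 9 * X * Y)) = gg (-7) (-5) - gg 3 2 :=
        Eq.trans (cg (by ring) (by ring) (by ring) (by ring)) (vm (-7) 3 (-5) 2 (by norm_num) (by norm_num)).1
      have v2 : W 1 (1 + 3 * X) (3 * Y) (3 * Y + (1 + 9 * X * Y)) = gg 3 2 - gg 1 1 :=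
        Eq.trans (cg (by ring) (by ring) (by ring) (by ring)) (vm 1 1 0 1 (by norm_num) (by norm_num)).2.1
      have n1 : gg (-7) (-5) = gg 7 5 := hnn 7 5 (by norm_num)
      rw [v1, v2, n1]
      abel
    · show edgeT 2 1 8 5 G x y = F 8 x y
      rw [← b8, key]
      have v1 : V 1 (2 * 1 + 3 * X) (3 * Y) (6 * Y + (1 + 9 * X * Y)) = gg 1 0 - gg 2 1 :=
        Eq.trans (cg (by ring) (by ring) (by ring) (by ring)) (vm 1 2 0 1 (by norm_num) (by norm_num)).1
      have v2 : U 1 (2 * 1 + 3 * X) (3 * Y) (6 * Y + (1 + 9 * X * Y)) = gg (-8) (-5) - gg 1 0 :=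
        Eq.trans (cg (by ring) (by ring) (by ring) (by ring)) (vm 1 2 0 1 (by norm_num) (by norm_num)).2.2
      have n1 : gg (-8) (-5) = gg 8 5 := hnn 8 5 (by norm_num)
      rw [v1, v2, n1]
      abel

end Pool.Agent.Helper10.T53
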